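import Mathlib

set_option autoImplicit false
open Finset

namespace Pool.Agent.STSAut

/-- a Steiner quasigroup -/
structure SQ (V : Type) where
  op : V → V → V
  idem : ∀ x, op x x = x
  comm : ∀ x y, op x y = op y x
  canc : ∀ x y, op x (op x y) = y

namespace SQ
variable {V : Type} (Q : SQ V)

lemma inj (x : V) : Function.Injective (Q.op x) := fun a b h => by
  rw [← Q.canc x a, h, Q.canc]

lemma op_ne_left {x y : V} (h : x ≠ y) : Q.op x y ≠ x := fun e => by
  have := Q.canc x y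
  rw [e, Q.idem] at this
  exact h this

lemma op_ne_right {x y : V} (h : x ≠ y) : Q.op x y ≠ y := by
  rw [Q.comm]; exact Q.op_ne_left h.symm

lemma swap {x y z : V} (h : Q.op x y = z) : Q.op y z = x := by
  rw [← h, Q.comm x y, Q.canc]

/-- transport along an equivalence -/
def map {U : Type} (e : U ≃ V) : SQ U where
  op x y := e.symm (Q.op (e x) (e y))
  idem x := by simp [Q.idem]
  comm x y := by rw [Q.comm]
  canc x y := by simp [Q.canc]

/-- the blocks -/
def blocks [Fintype V] [DecidableEq V] : Finset (Finset V) :=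
  (univ.filter (fun p : V × V => p.1 ≠ p.2)).image (fun p => {p.1, p.2, Q.op p.1 p.2})

lemma mem_blocks [Fintype V] [DecidableEq V] {b : Finset V} :
    b ∈ Q.blocks ↔ ∃ x y, x ≠ y ∧ b = {x, y, Q.op x y} := by
  simp only [blocks, mem_image, mem_filter, mem_univ, true_and, Prod.exists]
  constructor
  · rintro ⟨x, y, h, rfl⟩; exact ⟨x, y, h, rfl⟩
  · rintro ⟨x, y, h, rfl⟩; exact ⟨x, y, h, rfl⟩

lemma card_block [Fintype V] [DecidableEq V] : ∀ b ∈ Q.blocks, b.card = 3 := by
  intro b hb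
  obtain ⟨x, y, h, rfl⟩ := Q.mem_blocks.1 hb
  exact Finset.card_eq_three.2 ⟨x, y, _, h, (Q.op_ne_left h).symm, (Q.op_ne_right h).symm, rfl⟩

lemma block_eq [Fintype V] [DecidableEq V] {b : Finset V} (hb : b ∈ Q.blocks) {x y : V}
    (h : x ≠ y) (hx : x ∈ b) (hy : y ∈ b) : b = {x, y, Q.op x y} := by
  obtain ⟨u, v, huv, rfl⟩ := Q.mem_blocks.1 hb
  have e1 := Q.canc u v
  have e2 : Q.op v (Q.op u v) = u := Q.swap rfl
  have e3 : Q.op (Q.op u v) u = v := by rw [Q.comm, e1]
  have e4 : Q.op (Q.op u v) v = u := by rw [Q.comm, e2]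
  have e5 := Q.comm v u
  simp only [mem_insert, mem_singleton] at hx hy
  rcases hx with rfl | rfl | rfl <;> rcases hy with rfl | rfl | rfl <;>
    first
      | exact absurd rfl h
      | (ext t; simp only [e1, e2, e3, e4, e5, mem_insert, mem_singleton] <;> tauto)

lemma exu [Fintype V] [DecidableEq V] (x y : V) (h : x ≠ y) :
    ∃! b, b ∈ Q.blocks ∧ x ∈ b ∧ y ∈ b :=
  ⟨{x, y, Q.op x y}, ⟨Q.mem_blocks.2 ⟨x, y, h, rfl⟩, by simp, by simp⟩,
    fun _ hb => Q.block_eq hb.1 h hb.2.1 hb.2.2⟩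

/-- automorphisms -/
def IsAut (α : Equiv.Perm V) : Prop := ∀ x y, α (Q.op x y) = Q.op (α x) (α y)

lemma IsAut.symm {Q : SQ V} {α : Equiv.Perm V} (h : Q.IsAut α) : Q.IsAut α.symm := by
  intro x y
  apply α.injective
  rw [h]; simp

lemma IsAut.image [Fintype V] [DecidableEq V] {Q : SQ V} {α : Equiv.Perm V} (h : Q.IsAut α) :
    ∀ b ∈ Q.blocks, b.image α ∈ Q.blocks := by
  intro b hb
  obtain ⟨x, y, hxy, rfl⟩ := Q.mem_blocks.1 hb
  exact Q.mem_blocks.2 ⟨α x, α y, α.injective.ne hxy, by simp [h x y]⟩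

lemma isAut_iff [Fintype V] [DecidableEq V] (α : Equiv.Perm V) :
    Q.IsAut α ↔ ∀ b : Finset V, (b ∈ Q.blocks ↔ b.map α.toEmbedding ∈ Q.blocks) := by
  constructor
  · intro h b
    rw [Finset.map_eq_image]
    refine ⟨h.image b, fun hb => ?_⟩
    have := h.symm.image _ hb
    rw [Finset.image_image] at this
    simpa using this
  · intro h x y
    by_cases hxy : x = y
    · subst hxy; rw [Q.idem, Q.idem]
    · have h1 := (h _).1 (Q.mem_blocks.2 ⟨x, y, hxy, rfl⟩)
      have h2 := Q.block_eq h1 (α.injective.ne hxy) (by simp) (by simp)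
      have h3 : α (Q.op x y) ∈ ({α x, α y, Q.op (α x) (α y)} : Finset V) := by
        rw [← h2]; simp
      simp only [mem_insert, mem_singleton, α.injective.eq_iff] at h3
      rcases h3 with h3 | h3 | h3
      · exact absurd h3 (Q.op_ne_left hxy)
      · exact absurd h3 (Q.op_ne_right hxy)
      · exact h3

/-- closed under the operation on allowed pairs -/
def Cl (P : V → V → Prop) (T : Set V) : Prop := ∀ x ∈ T, ∀ y ∈ T, P x y → Q.op x y ∈ T

lemma dbl [Finite V] (P : V → V → Prop) {T U : Set V} (hT : Q.Cl P T) (hU : Q.Cl P U)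
    (hTU : T ⊆ U) {x : V} (hx : x ∈ U) (hxT : x ∉ T) (h1 : ∀ t, P x t)
    (h2 : ∀ t, P t (Q.op x t)) : 2 * T.ncard + 1 ≤ U.ncard := by
  have hd : Disjoint T (Q.op x '' T) := by
    rw [Set.disjoint_left]
    rintro _ ha ⟨t, ht, rfl⟩
    have := hT t ht _ ha (h2 t)
    rw [Q.swap rfl] at this
    exact hxT this
  have hx' : x ∉ T ∪ Q.op x '' T := by
    rintro (h | ⟨t, ht, h⟩)
    · exact hxT h
    · exact Q.op_ne_left (fun (e : x = t) => hxT (by rw [e]; exact ht)) h
  have hs : insert x (T ∪ Q.op x '' T) ⊆ U := by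
    rintro a (rfl | h | ⟨t, ht, rfl⟩)
    · exact hx
    · exact hTU h
    · exact hU x hx t (hTU ht) (h1 t)
  have := Set.ncard_le_ncard hs
  rw [Set.ncard_insert_of_notMem hx', Set.ncard_union_eq hd,
    Set.ncard_image_of_injective _ (Q.inj x)] at this
  omega

lemma gen [Fintype V] (P : V → V → Prop) (A : Set V) (h1 : ∀ x ∈ A, ∀ t, P x t)
    (h2 : ∀ x ∈ A, ∀ t, P t (Q.op x t)) :
    ∃ S : Finset V, 2 ^ S.card ≤ Fintype.card V + 1 ∧
      ∀ T, Q.Cl P T → (S : Set V) ⊆ T → A ⊆ T := by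
  classical
  let cl : Finset V → Set V := fun S => {x | ∀ T, Q.Cl P T → (S : Set V) ⊆ T → x ∈ T}
  have hcl : ∀ S, Q.Cl P (cl S) := fun S x hx y hy hP T hT hS =>
    hT x (hx T hT hS) y (hy T hT hS) hP
  have hsub : ∀ S : Finset V, (S : Set V) ⊆ cl S := fun S x hx T _ hS => hS hx
  obtain ⟨S, hS, hmax⟩ := Finset.exists_max_image
    (univ.filter (fun S : Finset V => 2 ^ S.card ≤ (cl S).ncard + 1)) Finset.card
    ⟨∅, by simp⟩
  simp only [mem_filter, mem_univ, true_and] at hS hmax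
  refine ⟨S, hS.trans ?_, fun T hT hST x hx => ?_⟩
  · have := Set.ncard_le_ncard (Set.subset_univ (cl S))
    rw [Set.ncard_univ, Nat.card_eq_fintype_card] at this
    omega
  · by_contra hxT
    have hx' : x ∉ cl S := fun h => hxT (h T hT hST)
    have hxS : x ∉ S := fun h => hx' (hsub S h)
    have hd := Q.dbl P (hcl S) (hcl (insert x S))
      (fun y hy U hU hs => hy U hU (fun z hz => hs (by simp [hz])))
      (hsub _ (by simp)) hx' (h1 x hx) (h2 x hx)
    have := hmax (insert x S) (by rw [Finset.card_insert_of_notMem hxS, pow_succ]; omega)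
    rw [Finset.card_insert_of_notMem hxS] at this
    omega

lemma card_fam [Fintype V] (P : V → V → Prop) (A : Set V) (h1 : ∀ x ∈ A, ∀ t, P x t)
    (h2 : ∀ x ∈ A, ∀ t, P t (Q.op x t)) {ι : Type} (H : Finset ι) (f : ι → V → V)
    (hc : ∀ a ∈ H, ∀ b ∈ H, Q.Cl P {x | f a x = f b x})
    (hA : ∀ a ∈ H, ∀ b ∈ H, (∀ x ∈ A, f a x = f b x) → a = b) :
    ∃ L, 2 ^ L ≤ Fintype.card V + 1 ∧ H.card ≤ Fintype.card V ^ L := by
  classical
  obtain ⟨S, hS, hg⟩ := Q.gen P A h1 h2
  refine ⟨S.card, hS, ?_⟩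
  have := Finset.card_le_card_of_injOn (s := H) (t := (univ : Finset (S → V)))
    (fun a s => f a s) (by simp) (fun a ha b hb e =>
      hA a ha b hb (hg _ (hc a ha b hb) (fun x hx => congrFun e ⟨x, hx⟩)))
  simpa using this

end SQ

/-- an incomplete Steiner triple system with hole `F` -/
structure Inc (W F : Type) where
  t : W → W → W ⊕ F
  m : F → W → W
  t_self : ∀ a, t a a = Sum.inl a
  t_comm : ∀ a b, t a b = t b a
  t_inl : ∀ a b c, t a b = Sum.inl c → t a c = Sum.inl b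
  t_inr : ∀ a b z, t a b = Sum.inr z ↔ m z a = b

namespace Inc
variable {W F : Type} (I : Inc W F)

lemma mm (z : F) (a : W) : I.m z (I.m z a) = a :=
  (I.t_inr _ _ _).1 (by rw [I.t_comm]; exact (I.t_inr _ _ _).2 rfl)

/-- fill the hole -/
def fill (σ : SQ F) : SQ (W ⊕ F) where
  op x y := match x, y with
    | Sum.inl a, Sum.inl b => I.t a b
    | Sum.inl a, Sum.inr z => Sum.inl (I.m z a)
    | Sum.inr z, Sum.inl a => Sum.inl (I.m z a)
    | Sum.inr z, Sum.inr z' => Sum.inr (σ.op z z')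
  idem x := by
    cases x with
    | inl a => exact I.t_self a
    | inr z => simp [σ.idem]
  comm x y := by
    cases x <;> cases y
    · exact I.t_comm _ _
    · rfl
    · rfl
    · simp [σ.comm]
  canc x y := by
    rcases x with a | z <;> rcases y with b | z'
    · rcases h : I.t a b with c | u
      · simp only [h]; exact I.t_inl _ _ _ h
      · simp only [h]; rw [(I.t_inr _ _ _).1 h]
    · exact (I.t_inr _ _ _).2 rfl
    · simp [I.mm]
    · simp [σ.canc]

/-- tripling -/
def triple : Inc (W × ZMod 3) (F × ZMod 3) where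
  t a b := Sum.map (fun c => (c, -a.2 - b.2)) (fun z => (z, -a.2 - b.2)) (I.t a.1 b.1)
  m z a := (I.m z.1 a.1, -a.2 - z.2)
  t_self a := by
    have : ∀ i : ZMod 3, -i - i = i := by decide
    simp [I.t_self, this]
  t_comm a b := by rw [I.t_comm, show -a.2 - b.2 = -b.2 - a.2 by ring]
  t_inl a b c h := by
    rcases h' : I.t a.1 b.1 with u | u
    · rw [h'] at h
      simp only [Sum.map_inl, Sum.inl.injEq] at h
      subst h
      simp [I.t_inl _ _ _ h']
    · rw [h'] at h; simp at h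
  t_inr a b z := by
    rcases h' : I.t a.1 b.1 with u | u
    · simp only [Sum.map_inl, reduceCtorEq, false_iff]
      intro h
      have := (I.t_inr a.1 b.1 z.1).2 (congrArg Prod.fst h)
      rw [h'] at this; simp at this
    · simp only [Sum.map_inr, Sum.inr.injEq, Prod.ext_iff]
      rw [← I.t_inr, h']
      simp only [Sum.inr.injEq]
      constructor
      · rintro ⟨h1, h2⟩; exact ⟨h1, by rw [← h2]; ring⟩
      · rintro ⟨h1, h2⟩; exact ⟨h1, by rw [← h2]; ring⟩

include I in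
lemma odd_card [Fintype W] [Fintype F] (w : W) (hW : Even (Fintype.card W)) :
    Odd (Fintype.card F) := by
  classical
  let f : Function.End (W ⊕ F) := fun x => match x with
    | Sum.inl b => I.t w b
    | Sum.inr z => Sum.inl (I.m z w)
  have hf : f ^ 2 ^ 1 = 1 := by
    funext x
    change f (f x) = x
    rcases x with b | z
    · rcases h : I.t w b with c | u
      · simp only [f, h]; exact I.t_inl _ _ _ h
      · simp only [f, h]; rw [(I.t_inr _ _ _).1 h]
    · exact (I.t_inr _ _ _).2 rfl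
  haveI : Fact (Nat.Prime 2) := ⟨Nat.prime_two⟩
  have h1 := Equiv.Perm.card_fixedPoints_modEq hf
  have h2 : Fintype.card (Function.fixedPoints f) = 1 := by
    rw [Fintype.card_eq_one_iff]
    refine ⟨⟨Sum.inl w, I.t_self w⟩, ?_⟩
    rintro ⟨b | z, hb⟩
    · have h3 : I.t w b = Sum.inl b := hb
      rw [I.t_comm] at h3
      have h4 := I.t_inl _ _ _ h3
      rw [I.t_self] at h4
      exact Subtype.ext h4
    · exact absurd (show Sum.inl (I.m z w) = Sum.inr z from hb) (by simp)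
  rw [h2, Fintype.card_sum] at h1
  have := Nat.even_iff.1 hW
  rw [Nat.odd_iff]
  unfold Nat.ModEq at h1
  omega

/-- from relations -/
noncomputable def ofRel (T : W → W → W → Prop) (m : F → W → W)
    (s1 : ∀ a b c, T a b c → T b a c) (s2 : ∀ a b c, T a b c → T a c b)
    (fn : ∀ a b c c', T a b c → T a b c' → c = c') (ir : ∀ a c, ¬ T a a c)
    (mm : ∀ z a, m z (m z a) = a) (mf : ∀ z a, m z a ≠ a)
    (mi : ∀ z z' a, m z a = m z' a → z = z') (ex : ∀ z a c, ¬ T a (m z a) c)
    (cov : ∀ a b, a ≠ b → (∃ c, T a b c) ∨ ∃ z, m z a = b) :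
    {I : Inc W F // I.m = m ∧ ∀ a b c, I.t a b = Sum.inl c ↔ (T a b c ∨ (a = b ∧ b = c))} := by
  classical
  have hex : ∀ a b, ∃ x : W ⊕ F, (∀ c, x = Sum.inl c ↔ (T a b c ∨ (a = b ∧ b = c))) ∧
      ∀ z, x = Sum.inr z ↔ m z a = b := by
    intro a b
    by_cases hab : a = b
    · subst hab
      refine ⟨Sum.inl a, fun c => by simp [ir], fun z => by simp [mf]⟩
    · rcases cov a b hab with ⟨c, hc⟩ | ⟨z, rfl⟩
      · refine ⟨Sum.inl c, fun c' => ?_, fun z => ?_⟩
        · simp only [Sum.inl.injEq, hab, false_and, or_false]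
          exact ⟨fun h => h ▸ hc, fun h => fn _ _ _ _ hc h⟩
        · simp only [reduceCtorEq, false_iff]
          rintro rfl
          exact ex _ _ _ hc
      · refine ⟨Sum.inr z, fun c' => by simp [hab, ex], fun z' => ?_⟩
        simp only [Sum.inr.injEq]
        exact ⟨fun h => h ▸ rfl, fun h => (mi _ _ _ h).symm⟩
  choose t ht1 ht2 using hex
  refine ⟨⟨t, m, fun a => (ht1 a a a).2 (Or.inr ⟨rfl, rfl⟩), fun a b => ?_, fun a b c h => ?_,
    ht2⟩, rfl, ht1⟩
  · rcases h : t a b with c | z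
    · refine ((ht1 b a c).2 ?_).symm
      rcases (ht1 a b c).1 h with h | ⟨rfl, rfl⟩
      · exact Or.inl (s1 _ _ _ h)
      · exact Or.inr ⟨rfl, rfl⟩
    · refine ((ht2 b a z).2 ?_).symm
      rw [← (ht2 a b z).1 h, mm]
  · refine (ht1 a c b).2 ?_
    rcases (ht1 a b c).1 h with h | ⟨rfl, rfl⟩
    · exact Or.inl (s2 _ _ _ h)
    · exact Or.inr ⟨rfl, rfl⟩

end Inc

end Pool.Agent.STSAut
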