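import Pool.Agent.H.MP_9c4767_co.A

set_option autoImplicit false
open Finset

namespace Pool.Agent.STSAut

/-- the Bose construction -/
def bose {R : Type} [CommRing R] [DecidableEq R] (h : R) (hh : 2 * h = 1) : SQ (R × ZMod 3) where
  op a b := if a.1 = b.1 then (a.1, -a.2 - b.2) else if a.2 = b.2 then ((a.1 + b.1) * h, a.2 + 1)
    else if b.2 = a.2 + 1 then (2 * b.1 - a.1, a.2) else (2 * a.1 - b.1, b.2)
  idem a := by
    have : ∀ i : ZMod 3, -i - i = i := by decide
    simp [this]
  comm a b := by
    obtain ⟨x, i⟩ := a
    obtain ⟨y, j⟩ := b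
    by_cases hxy : x = y
    · subst hxy; simp only [if_true]; congr 1; ring
    · have hyx : ¬ y = x := fun e => hxy e.symm
      simp only [hxy, hyx, if_false]
      by_cases hij : i = j
      · subst hij; simp [add_comm]
      · have hji : ¬ j = i := fun e => hij e.symm
        simp only [hij, hji, if_false]
        have : ∀ i j : ZMod 3, ¬ i = j → (j = i + 1 ↔ ¬ i = j + 1) := by decide
        by_cases h1 : j = i + 1
        · rw [if_pos h1, if_neg ((this i j hij).1 h1)]
        · rw [if_neg h1, if_pos (by by_contra h2; exact h1 ((this i j hij).2 h2))]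
  canc a b := by
    obtain ⟨x, i⟩ := a
    obtain ⟨y, j⟩ := b
    have k1 : ∀ i : ZMod 3, ¬ i = i + 1 := by decide
    by_cases hxy : x = y
    · subst hxy; simp
    · simp only [hxy, if_false]
      by_cases hij : i = j
      · subst hij
        have : ¬ x = (x + y) * h := fun e => hxy (by linear_combination 2 * e + (x + y) * hh)
        simp only [if_true, this, if_false, k1]
        congr 1
        linear_combination (x + y) * hh
      · simp only [hij, if_false]
        by_cases h1 : j = i + 1
        · have : ¬ x = 2 * y - x := fun e => hxy (by linear_combination h * e + (y - x) * hh)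
          simp only [h1, if_true, this, if_false]
          congr 1
          linear_combination y * hh
        · have : ¬ x = 2 * x - y := fun e => hxy (by linear_combination -e)
          simp only [h1, if_false, this, hij]
          congr 1
          ring

lemma bose_sub (t : ℕ) [NeZero t] (ht : Odd t) (h3 : 3 ≤ t) (h : ZMod t) (hh : 2 * h = 1)
    (T : Set (ZMod t × ZMod 3)) (hT : (bose h hh).Cl (fun _ _ => True) T) (hc : t < T.ncard) :
    T = Set.univ := by
  classical
  haveI : Fact (1 < t) := ⟨by omega⟩
  let L : ZMod 3 → Set (ZMod t) := fun i => {x | (x, i) ∈ T}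
  have k1 : ∀ i : ZMod 3, ¬ i = i + 1 := by decide
  have hsum : ∀ j : ZMod 3, T.ncard ≤ (L j).ncard + (L (j + 1)).ncard + (L (j + 2)).ncard := by
    intro j
    have : T ⊆ ((fun x => (x, j)) '' L j ∪ (fun x => (x, j + 1)) '' L (j + 1)) ∪
        (fun x => (x, j + 2)) '' L (j + 2) := by
      rintro ⟨x, i⟩ hx
      have : ∀ i j : ZMod 3, i = j ∨ i = j + 1 ∨ i = j + 2 := by decide
      rcases this i j with rfl | rfl | rfl
      · exact Or.inl (Or.inl ⟨x, hx, rfl⟩)
      · exact Or.inl (Or.inr ⟨x, hx, rfl⟩)
      · exact Or.inr ⟨x, hx, rfl⟩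
    refine (Set.ncard_le_ncard this).trans ((Set.ncard_union_le _ _).trans ?_)
    gcongr
    · refine (Set.ncard_union_le _ _).trans ?_
      gcongr <;> exact Set.ncard_image_le
    · exact Set.ncard_image_le
  have mid : ∀ i x y, x ∈ L i → y ∈ L i → x ≠ y → (x + y) * h ∈ L (i + 1) := by
    intro i x y hx hy hxy
    have := hT _ hx _ hy trivial
    simp only [bose, hxy, if_false, if_true] at this
    exact this
  have refl : ∀ i x z, x ∈ L i → z ∈ L (i + 1) → 2 * z - x ∈ L i := by
    intro i x z hx hz
    by_cases hxz : x = z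
    · subst hxz; rwa [show 2 * x - x = x by ring]
    · have := hT _ hx _ hz trivial
      simp only [bose, hxz, k1, if_false, if_true] at this
      exact this
  have up : ∀ i, L i = Set.univ → L (i + 1) = Set.univ := by
    intro i hi
    refine Set.eq_univ_of_forall fun y => ?_
    have := mid i (y - 1) (y + 1) (by simp [hi]) (by simp [hi]) (fun e => by
      have : (1 : ZMod t) = 0 := by linear_combination -h * e - hh
      exact one_ne_zero this)
    rwa [show (y - 1 + (y + 1)) * h = y by linear_combination y * hh] at this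
  have all : ∀ i, L i = Set.univ → ∀ j, L j = Set.univ := by
    intro i hi j
    have : ∀ i j : ZMod 3, j = i ∨ j = i + 1 ∨ j = i + 1 + 1 := by decide
    rcases this i j with rfl | rfl | rfl
    · exact hi
    · exact up _ hi
    · exact up _ (up _ hi)
  have fin : ∀ i, L i = Set.univ → T = Set.univ := by
    intro i hi
    refine Set.eq_univ_of_forall fun ⟨x, j⟩ => ?_
    have : x ∈ L j := by rw [all i hi j]; trivial
    exact this
  obtain ⟨i, hi⟩ : ∃ i, t < 3 * (L (i + 1)).ncard := by
    by_contra hn
    push Not at hn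
    have a := hn 2
    have b := hn 0
    have c := hn 1
    have d := hsum 0
    rw [show (2 : ZMod 3) + 1 = 0 by decide] at a
    rw [show (1 : ZMod 3) + 1 = 0 + 2 by decide] at c
    omega
  let H : AddSubgroup (ZMod t) :=
    { carrier := {d | ∀ x, x ∈ L i ↔ x + d ∈ L i}
      add_mem' := fun {a b} ha hb x => by rw [← add_assoc, ← hb, ← ha]
      zero_mem' := fun x => by simp
      neg_mem' := fun {a} ha x => by rw [ha (x + -a)]; simp }
  obtain ⟨z0, hz0⟩ : (L (i + 1)).Nonempty := by
    rw [← Set.ncard_pos]; omega
  have hH : (L (i + 1)).ncard ≤ Nat.card H := by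
    rw [← SetLike.coe_sort_coe, Nat.card_coe_set_eq]
    refine Set.ncard_le_ncard_of_injOn (fun z => 2 * z - 2 * z0) (fun z hz x => ?_)
      (fun a _ b _ e => by
        have e' : 2 * a - 2 * z0 = 2 * b - 2 * z0 := e
        linear_combination h * e' + (b - a) * hh)
    constructor
    · intro hx
      have := refl i _ z (refl i x z0 hx hz0) hz
      rwa [show 2 * z - (2 * z0 - x) = x + (2 * z - 2 * z0) by ring] at this
    · intro hx
      have := refl i _ z0 (refl i _ z hx hz) hz0
      rwa [show 2 * z0 - (2 * z - (x + (2 * z - 2 * z0))) = x by ring] at this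
  have hdvd := AddSubgroup.card_addSubgroup_dvd_card H
  rw [Nat.card_zmod] at hdvd
  obtain ⟨q, hq⟩ := hdvd
  have hq1 : q = 1 := by
    have h1 : Odd q := (Nat.odd_mul.1 (hq ▸ ht)).2
    have h2 : q < 3 := by
      by_contra h2
      push Not at h2
      nlinarith
    obtain ⟨r, rfl⟩ := h1
    omega
  have htop : H = ⊤ := AddSubgroup.eq_top_of_card_eq H (by rw [Nat.card_zmod]; rw [hq1, mul_one] at hq; exact hq.symm)
  by_cases he : (L i).Nonempty
  · obtain ⟨x, hx⟩ := he
    refine fin i (Set.eq_univ_of_forall fun y => ?_)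
    have : y - x ∈ H := by rw [htop]; trivial
    have := (this x).1 hx
    rwa [show x + (y - x) = y by ring] at this
  · have h0 : (L i).ncard = 0 := by rw [Set.not_nonempty_iff_eq_empty.1 he]; simp
    have h1 : (L (i + 2)).ncard ≤ 1 := by
      rw [Set.ncard_le_one_iff]
      intro a b ha hb
      by_contra hab
      have := mid _ a b ha hb hab
      have e : ∀ i : ZMod 3, i + 2 + 1 = i := by decide
      rw [e] at this
      exact he ⟨_, this⟩
    have := hsum i
    refine fin (i + 1) ?_
    refine Set.eq_of_subset_of_ncard_le (Set.subset_univ _) ?_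
    rw [Set.ncard_univ, Nat.card_zmod]
    omega

end Pool.Agent.STSAut
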