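import Pool.Agent.H.MP_9c4767_co.A

set_option autoImplicit false
open Finset

namespace Pool.Agent.STSAut

/-- data for the construction -/
structure Dat (G X : Type) [Group G] [AddCommGroup X] where
  hX : ∀ a : X, a + a = 0
  ι : G → X
  hι : Function.Injective ι
  e : X → ℕ
  he : Function.Injective e
  σ : G → Bool
  hσ : ∀ s, s * s ≠ 1 → σ s⁻¹ = !σ s
  tw : X → X → Bool → Equiv.Perm G
  htw : ∀ a y ε, tw a (y + a) ε = tw a y ε

namespace Dat
variable {G X : Type} [Group G] [AddCommGroup X] (D : Dat G X)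

/-- oriented triangles -/
def T0 (a b c : G × X × Bool) : Prop := ∃ g y u, u * u ≠ 1 ∧ a = (g, y, D.σ u) ∧
  b = (g * u, y, D.σ u) ∧ c = (g, y + D.ι u, !D.σ u)

/-- triangles -/
def Tri (a b c : G × X × Bool) : Prop :=
  D.T0 a b c ∨ D.T0 b a c ∨ D.T0 a c b ∨ D.T0 c a b ∨ D.T0 b c a ∨ D.T0 c b a

/-- labels consumed by triangles -/
def used (a : X) (s : G) : Prop :=
  ∃ u, u * u ≠ 1 ∧ a = D.ι u ∧ (s = 1 ∨ s = if D.σ u then u else u⁻¹)

/-- the fixed points -/
def F : Type := {t : G // t ≠ 1 ∧ t * t = 1} ⊕ ({a : X // a ≠ 0} × G) ⊕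
  {p : X × G // ¬ D.used p.1 p.2}

/-- the invariant matchings -/
def m : D.F → G × X × Bool → G × X × Bool
  | Sum.inl t, w => (w.1 * t.1, w.2)
  | Sum.inr (Sum.inl p), w => (w.1 * (if D.e w.2.1 < D.e (w.2.1 + p.1.1)
      then D.tw p.1.1 w.2.1 w.2.2 p.2 else (D.tw p.1.1 w.2.1 w.2.2 p.2)⁻¹), w.2.1 + p.1.1, w.2.2)
  | Sum.inr (Sum.inr p), w => (w.1 * (if w.2.2 then p.1.2⁻¹ else p.1.2), w.2.1 + p.1.1, !w.2.2)

include D in
lemma aa (y a : X) : y + a + a = y := by rw [add_assoc, D.hX, add_zero]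

lemma s12 {a b c} (h : D.T0 a b c) : a.2 = b.2 ∧ c.2.2 = !a.2.2 ∧ a ≠ b ∧
    (a.1⁻¹ * b.1) * (a.1⁻¹ * b.1) ≠ 1 := by
  obtain ⟨g, y, u, hu, rfl, rfl, rfl⟩ := h
  refine ⟨rfl, rfl, fun e => hu ?_, by simpa using hu⟩
  have : u = 1 := by simpa using e
  simp [this]

lemma f1 {a b c c'} (h : D.T0 a b c) (h' : D.T0 a b c') : c = c' := by
  obtain ⟨g, y, u, hu, rfl, rfl, rfl⟩ := h
  obtain ⟨g', y', u', hu', h1, h2, rfl⟩ := h'
  simp only [Prod.mk.injEq] at h1 h2
  obtain ⟨rfl, rfl, -⟩ := h1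
  obtain rfl : u = u' := mul_left_cancel h2.1
  rfl

lemma f2 {a b c c'} (h : D.T0 a b c) (h' : D.T0 b a c') : False := by
  obtain ⟨g, y, u, hu, rfl, rfl, rfl⟩ := h
  obtain ⟨g', y', u', hu', h1, h2, rfl⟩ := h'
  simp only [Prod.mk.injEq] at h1 h2
  obtain ⟨rfl, rfl, h3⟩ := h1
  have : u' = u⁻¹ := by
    have := h2.1
    rw [mul_assoc, left_eq_mul] at this
    exact eq_inv_of_mul_eq_one_right this
  rw [this, D.hσ u hu] at h3
  simp at h3

lemma f3 {a b c c'} (h : D.T0 a c b) (h' : D.T0 a c' b) : c = c' := by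
  obtain ⟨g, y, u, hu, rfl, rfl, rfl⟩ := h
  obtain ⟨g', y', u', hu', h1, rfl, h2⟩ := h'
  simp only [Prod.mk.injEq] at h1 h2
  obtain ⟨rfl, rfl, -⟩ := h1
  obtain rfl : u = u' := D.hι (add_left_cancel h2.2.1)
  rfl

lemma f4 {a b c c'} (h : D.T0 a c b) (h' : D.T0 c' a b) : False := by
  obtain ⟨g, y, u, hu, rfl, rfl, rfl⟩ := h
  obtain ⟨g', y', u', hu', rfl, h1, h2⟩ := h'
  simp only [Prod.mk.injEq] at h1 h2
  obtain ⟨rfl, -, -⟩ := h2
  have : u' = 1 := by simpa using h1.1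
  simp [this] at hu'

lemma f5 {a b c c'} (h : D.T0 c a b) (h' : D.T0 c' a b) : c = c' := by
  obtain ⟨g, y, u, hu, rfl, rfl, rfl⟩ := h
  obtain ⟨g', y', u', hu', rfl, h1, h2⟩ := h'
  simp only [Prod.mk.injEq] at h1 h2
  obtain ⟨rfl, -, -⟩ := h2
  obtain ⟨h3, rfl, h4⟩ := h1
  rw [h4]

lemma ap {a b c} (h : D.T0 a c b ∨ D.T0 c a b) :
    ∃ u, a.2.2 = D.σ u ∧ b.2.2 = (!D.σ u) ∧ b.2.1 = a.2.1 + D.ι u := by
  rcases h with ⟨g, y, u, hu, rfl, rfl, rfl⟩ | ⟨g, y, u, hu, rfl, rfl, rfl⟩ <;>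
    exact ⟨u, rfl, rfl, rfl⟩

lemma f6 {a b c c'} (h : D.T0 a c b ∨ D.T0 c a b) (h' : D.T0 b c' a ∨ D.T0 c' b a) : False := by
  obtain ⟨u, h1, h2, h3⟩ := D.ap h
  obtain ⟨u', h4, h5, h6⟩ := D.ap h'
  have : D.ι u = D.ι u' := by
    rw [h3, add_assoc, left_eq_add] at h6
    rw [← D.aa (D.ι u) (D.ι u'), h6, zero_add]
  obtain rfl := D.hι this
  rw [h1] at h5
  simp at h5

lemma f7 {a b c c'} (h : D.T0 a b c ∨ D.T0 b a c) (h' : D.T0 a c' b ∨ D.T0 c' a b) : False := by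
  obtain ⟨u, h1, h2, h3⟩ := D.ap h'
  have : a.2 = b.2 := by
    rcases h with h | h
    · exact (D.s12 h).1
    · exact (D.s12 h).1.symm
  rw [← this, h1] at h2
  simp at h2

lemma fn (a b c c') (h : D.Tri a b c) (h' : D.Tri a b c') : c = c' := by
  rcases h with h | h | h | h | h | h <;> rcases h' with h' | h' | h' | h' | h' | h' <;>
    first
      | exact D.f1 h h'
      | exact (D.f2 h h').elim
      | exact D.f3 h h'
      | exact (D.f4 h h').elim
      | exact (D.f4 h' h).elim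
      | exact D.f5 h h'
      | exact (D.f6 (a := a) (b := b) (by first | exact Or.inl h | exact Or.inr h)
          (by first | exact Or.inl h' | exact Or.inr h')).elim
      | exact (D.f6 (a := b) (b := a) (by first | exact Or.inl h | exact Or.inr h)
          (by first | exact Or.inl h' | exact Or.inr h')).elim
      | exact (D.f7 (a := a) (b := b) (by first | exact Or.inl h | exact Or.inr h)
          (by first | exact Or.inl h' | exact Or.inr h')).elim
      | exact (D.f7 (a := b) (b := a) (by first | exact Or.inl h | exact Or.inr h)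
          (by first | exact Or.inl h' | exact Or.inr h')).elim
      | exact (D.f7 (a := a) (b := b) (by first | exact Or.inl h' | exact Or.inr h')
          (by first | exact Or.inl h | exact Or.inr h)).elim
      | exact (D.f7 (a := b) (b := a) (by first | exact Or.inl h' | exact Or.inr h')
          (by first | exact Or.inl h | exact Or.inr h)).elim

lemma ir (a c) : ¬ D.Tri a a c := by
  rintro (h | h | h | h | h | h)
  · exact (D.s12 h).2.2.1 rfl
  · exact (D.s12 h).2.2.1 rfl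
  · simpa using (D.s12 h).2.1
  · have := D.s12 h; rw [this.1] at this; simpa using this.2.1
  · simpa using (D.s12 h).2.1
  · have := D.s12 h; rw [this.1] at this; simpa using this.2.1

lemma mm (z : D.F) (a) : D.m z (D.m z a) = a := by
  obtain ⟨g, y, ε⟩ := a
  rcases z with ⟨t, ht⟩ | ⟨⟨a, ha⟩, s⟩ | ⟨⟨a, s⟩, h⟩
  · simp [m, mul_assoc, ht.2]
  · simp only [m, D.aa, D.htw]
    have : D.e y ≠ D.e (y + a) := fun e => ha (by simpa using D.he e)
    by_cases h : D.e y < D.e (y + a)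
    · rw [if_pos h, if_neg (by omega)]; simp
    · rw [if_neg h, if_pos (by omega)]; simp
  · cases ε <;> simp [m, D.aa]

lemma mf (z : D.F) (a) : D.m z a ≠ a := by
  obtain ⟨g, y, ε⟩ := a
  rcases z with ⟨t, ht⟩ | ⟨⟨a, ha⟩, s⟩ | ⟨⟨a, s⟩, h⟩
  · simp [m, ht.1]
  · simp [m, ha]
  · simp [m]

lemma mi (z z' : D.F) (a) (h : D.m z a = D.m z' a) : z = z' := by
  obtain ⟨g, y, ε⟩ := a
  rcases z with ⟨t, ht⟩ | ⟨⟨a, ha⟩, s⟩ | ⟨⟨a, s⟩, h1⟩ <;>
    rcases z' with ⟨t', ht'⟩ | ⟨⟨a', ha'⟩, s'⟩ | ⟨⟨a', s'⟩, h1'⟩ <;>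
    simp only [m, Prod.mk.injEq, mul_right_inj, add_right_inj, left_eq_add, add_eq_left,
      Bool.not_eq_self, Bool.eq_not_self, and_false, and_true] at h
  · subst h; rfl
  · exact absurd h.2 ha'
  · exact absurd h.2 ha
  · obtain ⟨h, rfl⟩ := h
    obtain rfl : s = s' := by
      split_ifs at h
      · exact (D.tw a y ε).injective h
      · exact (D.tw a y ε).injective (inv_injective h)
    rfl
  · obtain ⟨h, rfl⟩ := h
    obtain rfl : s = s' := by
      split_ifs at h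
      · exact inv_injective h
      · exact h
    rfl

lemma us {a b c} (h : D.T0 a c b ∨ D.T0 c a b) :
    D.used (a.2.1 + b.2.1) (if a.2.2 then b.1⁻¹ * a.1 else a.1⁻¹ * b.1) := by
  rcases h with ⟨g, y, u, hu, rfl, rfl, rfl⟩ | ⟨g, y, u, hu, rfl, rfl, rfl⟩
  · refine ⟨u, hu, by simp [← add_assoc, D.hX], Or.inl ?_⟩
    simp
  · refine ⟨u, hu, by simp [← add_assoc, D.hX], Or.inr ?_⟩
    cases D.σ u <;> simp

lemma ex (z : D.F) (a c) : ¬ D.Tri a (D.m z a) c := by
  obtain ⟨g, y, ε⟩ := a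
  have k1 : ∀ {a b c}, (D.T0 a c b ∨ D.T0 c a b) → a.2.2 ≠ b.2.2 := by
    intro a b c h
    obtain ⟨u, h1, h2, -⟩ := D.ap h
    rw [h1, h2]; simp
  rcases z with ⟨t, ht⟩ | ⟨⟨a, ha⟩, s⟩ | ⟨⟨a, s⟩, h1⟩
  · rintro (h | h | h | h | h | h)
    · exact (D.s12 h).2.2.2 (by simp [m, ht.2])
    · refine (D.s12 h).2.2.2 ?_
      have : t⁻¹ = t := inv_eq_of_mul_eq_one_right ht.2
      simp [m, this, ht.2]
    · exact k1 (Or.inl h) rfl
    · exact k1 (Or.inr h) rfl
    · exact k1 (Or.inl h) rfl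
    · exact k1 (Or.inr h) rfl
  · rintro (h | h | h | h | h | h)
    · exact ha (by simpa [m] using (D.s12 h).1)
    · exact ha (by simpa [m] using (D.s12 h).1)
    · exact k1 (Or.inl h) rfl
    · exact k1 (Or.inr h) rfl
    · exact k1 (Or.inl h) rfl
    · exact k1 (Or.inr h) rfl
  · have e1 : y + (y + a) = a := by rw [← add_assoc, D.hX, zero_add]
    have e2 : y + a + y = a := by rw [add_comm, e1]
    rintro (h | h | h | h | h | h)
    · simpa [m] using (D.s12 h).1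
    · simpa [m] using (D.s12 h).1
    · have := D.us (Or.inl h); cases ε <;> simp [m, e1] at this <;> exact h1 this
    · have := D.us (Or.inr h); cases ε <;> simp [m, e1] at this <;> exact h1 this
    · have := D.us (Or.inl h); cases ε <;> simp [m, e2] at this <;> exact h1 this
    · have := D.us (Or.inr h); cases ε <;> simp [m, e2] at this <;> exact h1 this

lemma s1 (a b c) (h : D.Tri a b c) : D.Tri b a c := by unfold Tri at *; tauto
lemma s2 (a b c) (h : D.Tri a b c) : D.Tri a c b := by unfold Tri at *; tauto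

lemma cov0 (g h : G) (y y' : X) : (∃ c, D.Tri (g, y, false) (h, y', true) c) ∨
    ∃ z, D.m z (g, y, false) = (h, y', true) := by
  have e1 : y + (y + y') = y' := by rw [← add_assoc, D.hX, zero_add]
  have e2 : y' + (y + y') = y := by rw [add_comm y, ← add_assoc, D.hX, zero_add]
  by_cases hu : D.used (y + y') (g⁻¹ * h)
  · left
    obtain ⟨u, hu, h1, h2⟩ := hu
    cases hs : D.σ u
    · rcases h2 with h2 | h2
      · obtain rfl : g = h := inv_mul_eq_one.1 h2
        exact ⟨_, Or.inr (Or.inr (Or.inl ⟨g, y, u, hu, by rw [hs], rfl, by simp [← h1, e1, hs]⟩))⟩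
      · obtain rfl : g = h * u := by
          simp only [hs, Bool.false_eq_true, if_false] at h2
          rw [← inv_inv u, ← h2]; simp
        exact ⟨_, Or.inr (Or.inr (Or.inr (Or.inl
          ⟨h, y, u, hu, rfl, by rw [hs], by simp [← h1, e1, hs]⟩)))⟩
    · rcases h2 with h2 | h2
      · obtain rfl : g = h := inv_mul_eq_one.1 h2
        exact ⟨_, Or.inr (Or.inr (Or.inr (Or.inr (Or.inl
          ⟨g, y', u, hu, by rw [hs], rfl, by simp [← h1, e2, hs]⟩))))⟩
      · obtain rfl : h = g * u := by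
          simp only [hs, if_true] at h2
          rw [← h2]; simp
        exact ⟨_, Or.inr (Or.inr (Or.inr (Or.inr (Or.inr
          ⟨g, y', u, hu, rfl, by rw [hs], by simp [← h1, e2, hs]⟩))))⟩
  · exact Or.inr ⟨Sum.inr (Sum.inr ⟨(y + y', g⁻¹ * h), hu⟩), by simp [m, e1]⟩

lemma cov (a b) (hab : a ≠ b) : (∃ c, D.Tri a b c) ∨ ∃ z, D.m z a = b := by
  obtain ⟨g, y, ε⟩ := a
  obtain ⟨h, y', ε'⟩ := b
  by_cases hε : ε = ε'
  · subst hε
    by_cases hy : y = y'
    · subst hy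
      have hg : g⁻¹ * h ≠ 1 := fun e => hab (by rw [inv_mul_eq_one.1 e])
      by_cases hu : (g⁻¹ * h) * (g⁻¹ * h) = 1
      · exact Or.inr ⟨Sum.inl ⟨_, hg, hu⟩, by simp [m]⟩
      · left
        by_cases hs : D.σ (g⁻¹ * h) = ε
        · exact ⟨_, Or.inl ⟨g, y, _, hu, by rw [hs], by simp [hs], rfl⟩⟩
        · have h2 : D.σ (g⁻¹ * h)⁻¹ = ε := by
            rw [D.hσ _ hu]; cases ε <;> simp_all
          refine ⟨_, Or.inr (Or.inl ⟨h, y, (g⁻¹ * h)⁻¹, fun e => hu ?_, by rw [h2],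
            by rw [h2]; simp, rfl⟩)⟩
          rw [← mul_inv_rev, inv_eq_one] at e
          exact e
    · right
      have e1 : y + (y + y') = y' := by rw [← add_assoc, D.hX, zero_add]
      have ha : y + y' ≠ 0 := fun e => hy (by rw [← e1, e, add_zero])
      refine ⟨Sum.inr (Sum.inl (⟨y + y', ha⟩, (D.tw (y + y') y ε).symm
        (if D.e y < D.e y' then g⁻¹ * h else (g⁻¹ * h)⁻¹))), ?_⟩
      simp only [m, e1, Equiv.apply_symm_apply]
      split_ifs <;> simp
  · cases ε <;> cases ε'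
    · exact absurd rfl hε
    · exact D.cov0 g h y y'
    · rcases D.cov0 h g y' y with ⟨c, hc⟩ | ⟨z, hz⟩
      · exact Or.inl ⟨c, D.s1 _ _ _ hc⟩
      · exact Or.inr ⟨z, by rw [← hz, D.mm]⟩
    · exact absurd rfl hε

/-- the incomplete system -/
noncomputable def inc : Inc (G × X × Bool) D.F :=
  (Inc.ofRel D.Tri D.m D.s1 D.s2 D.fn D.ir D.mm D.mf D.mi D.ex D.cov).1

lemma inc_m : D.inc.m = D.m :=
  (Inc.ofRel D.Tri D.m D.s1 D.s2 D.fn D.ir D.mm D.mf D.mi D.ex D.cov).2.1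

lemma inc_t (a b c) : D.inc.t a b = Sum.inl c ↔ (D.Tri a b c ∨ (a = b ∧ b = c)) :=
  (Inc.ofRel D.Tri D.m D.s1 D.s2 D.fn D.ir D.mm D.mf D.mi D.ex D.cov).2.2 a b c

lemma inc_eq (k : G) (a b : G × X × Bool) : D.inc.t (k * a.1, a.2) (k * b.1, b.2) =
    Sum.map (fun c => (k * c.1, c.2)) id (D.inc.t a b) := by
  have h0 : ∀ {a b c}, D.T0 a b c → D.T0 (k * a.1, a.2) (k * b.1, b.2) (k * c.1, c.2) := by
    rintro _ _ _ ⟨g, y, u, hu, rfl, rfl, rfl⟩
    exact ⟨k * g, y, u, hu, rfl, by simp [mul_assoc], rfl⟩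
  rcases h : D.inc.t a b with c | z
  · rw [Sum.map_inl, D.inc_t]
    rcases (D.inc_t _ _ _).1 h with h | ⟨rfl, rfl⟩
    · left
      rcases h with h | h | h | h | h | h <;> have := h0 h <;> unfold Tri <;> tauto
    · exact Or.inr ⟨rfl, rfl⟩
  · rw [Sum.map_inr, id, Inc.t_inr, D.inc_m]
    rw [Inc.t_inr, D.inc_m] at h
    rw [← h]
    rcases z with t | p | p <;> simp [m, mul_assoc]

lemma card_F [Fintype G] [Fintype X] : Finite D.F ∧
    2 * Fintype.card X * Fintype.card G ≤ Nat.card D.F + 3 * Fintype.card G := by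
  classical
  have h1 : Nat.card {a : X // a ≠ 0} + 1 = Fintype.card X := by
    rw [Nat.card_eq_fintype_card, Fintype.card_subtype_compl, Fintype.card_subtype_eq]
    have : 0 < Fintype.card X := Fintype.card_pos
    omega
  have h2 : Fintype.card X * Fintype.card G ≤
      Nat.card {p : X × G // ¬ D.used p.1 p.2} + 2 * Fintype.card G := by
    rw [Nat.card_eq_fintype_card, Fintype.card_subtype_compl, Fintype.card_prod]
    have : Fintype.card {p : X × G // D.used p.1 p.2} ≤ Fintype.card (G × Bool) := by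
      rw [Fintype.card_subtype, ← Finset.card_univ]
      refine Finset.card_le_card_of_surjOn
        (fun q : G × Bool => (D.ι q.1, if q.2 then 1 else if D.σ q.1 then q.1 else q.1⁻¹)) ?_
      rintro ⟨a, s⟩ hp
      simp only [coe_filter, mem_univ, true_and, Set.mem_setOf_eq] at hp
      obtain ⟨u, -, rfl, rfl | rfl⟩ := hp
      · exact ⟨(u, true), by simp, by simp⟩
      · exact ⟨(u, false), by simp, by simp⟩
    simp only [Fintype.card_prod, Fintype.card_bool] at this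
    omega
  refine ⟨by unfold F; infer_instance, ?_⟩
  unfold F
  rw [Nat.card_sum, Nat.card_sum, Nat.card_prod, Nat.card_eq_fintype_card (α := G)]
  rw [← h1] at h2 ⊢
  nlinarith

end Dat

end Pool.Agent.STSAut
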