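import Pool.Agent.H.MP_9c4767_co.A

set_option autoImplicit false
open Finset

namespace Pool.Agent.STSAut

/-- no large proper subsystem -/
def SQ.Small {F : Type} (σ : SQ F) : Prop :=
  ∀ T : Set F, σ.Cl (fun _ _ => True) T → Nat.card F < 3 * T.ncard → T = Set.univ

lemma SQ.Small.map {F U : Type} {σ : SQ F} (h : σ.Small) (e : U ≃ F) : (σ.map e).Small := by
  intro T hT hc
  have := h (e '' T) (by
    rintro _ ⟨x, hx, rfl⟩ _ ⟨y, hy, rfl⟩ _
    exact ⟨_, hT x hx y hy trivial, by simp [SQ.map]⟩)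
    (by rwa [Set.ncard_image_of_injective _ e.injective, ← Nat.card_congr e])
  refine Set.eq_univ_of_forall fun x => ?_
  have h1 : e x ∈ e '' T := by rw [this]; trivial
  simpa using h1

lemma hole_inv {W F : Type} [Fintype W] [Fintype F] (I : Inc W F) (σ : SQ F) (hσ : σ.Small)
    (hs : 3 * Fintype.card W < 4 * Fintype.card F) (α : Equiv.Perm (W ⊕ F))
    (hα : (I.fill σ).IsAut α) : α '' Set.range Sum.inr = Set.range Sum.inr := by
  set Q := I.fill σ
  set F' : Set (W ⊕ F) := Set.range Sum.inr with hF'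
  set U := α '' F' with hU
  have cF : F'.ncard = Fintype.card F := by
    rw [hF', Set.ncard_range_of_injective Sum.inr_injective, Nat.card_eq_fintype_card]
  have cU : U.ncard = Fintype.card F := by rw [hU, Set.ncard_image_of_injective _ α.injective, cF]
  have clF : ∀ x ∈ F', ∀ y ∈ F', Q.op x y ∈ F' := by
    rintro _ ⟨x, rfl⟩ _ ⟨y, rfl⟩; exact ⟨_, rfl⟩
  have clU : ∀ x ∈ U, ∀ y ∈ U, Q.op x y ∈ U := by
    rintro _ ⟨x, hx, rfl⟩ _ ⟨y, hy, rfl⟩; exact ⟨_, clF x hx y hy, hα x y⟩
  by_contra hne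
  obtain ⟨u, hu, huF⟩ : ∃ u ∈ U, u ∉ F' := by
    by_contra h
    push Not at h
    exact hne (Set.eq_of_subset_of_ncard_le h (by omega))
  have hT : 3 * (Sum.inr ⁻¹' U : Set F).ncard ≤ Fintype.card F := by
    by_contra h
    have := hσ (Sum.inr ⁻¹' U) (fun x hx y hy _ => clU _ hx _ hy)
      (by rw [Nat.card_eq_fintype_card]; omega)
    refine hne (Set.eq_of_subset_of_ncard_le ?_ (by omega)).symm
    rintro _ ⟨x, rfl⟩
    have : x ∈ (Sum.inr ⁻¹' U : Set F) := by rw [this]; trivial
    exact this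
  have h1 : (F' ∩ U).ncard = (Sum.inr ⁻¹' U : Set F).ncard := by
    rw [← Set.ncard_image_of_injective (Sum.inr ⁻¹' U : Set F) (Sum.inr_injective (α := W)),
      Set.image_preimage_eq_range_inter]
  have h2 := Set.ncard_inter_add_ncard_diff_eq_ncard F' U
  have d1 : Disjoint U (F' \ U) := Set.disjoint_sdiff_right
  have d2 : Disjoint (U ∪ F' \ U) (Q.op u '' (F' \ U)) := by
    rw [Set.disjoint_right]
    rintro _ ⟨t, ht, rfl⟩ (h | h)
    · have := clU u hu _ h
      rw [Q.canc] at this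
      exact ht.2 this
    · have := clF t ht.1 _ h.1
      rw [Q.swap rfl] at this
      exact huF this
  have h3 := Set.ncard_le_ncard (Set.subset_univ (U ∪ F' \ U ∪ Q.op u '' (F' \ U)))
  rw [Set.ncard_union_eq d2, Set.ncard_union_eq d1, Set.ncard_image_of_injective _ (Q.inj u),
    Set.ncard_univ, Nat.card_eq_fintype_card, Fintype.card_sum] at h3
  omega

lemma cnt0 {F : Type} [Fintype F] [DecidableEq F] (e : F → ℕ) (δ γ : Equiv.Perm F) :
    (univ.filter (fun π : Equiv.Perm F => ∀ x, π (δ x) = γ (π x))).card ≤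
      Fintype.card F ^ (Fintype.card F - (univ.filter (fun x => e (δ x) < e x)).card) := by
  have := Finset.card_le_card_of_injOn
    (s := univ.filter (fun π : Equiv.Perm F => ∀ x, π (δ x) = γ (π x)))
    (t := (univ : Finset ({x // ¬ e (δ x) < e x} → F)))
    (fun π s => π s) (by simp) (fun π hπ π' hπ' h => by
      simp only [coe_filter, mem_univ, true_and, Set.mem_setOf_eq] at hπ hπ'
      have key : ∀ n x, e x = n → π x = π' x := by
        intro n
        induction n using Nat.strong_induction_on with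
        | _ n ih =>
          intro x hx
          by_cases hd : e (δ x) < e x
          · have := ih _ (hx ▸ hd) _ rfl
            rw [hπ, hπ'] at this
            exact γ.injective this
          · exact congrFun h ⟨x, hd⟩
      exact Equiv.ext fun x => key _ x rfl)
  rwa [card_univ, Fintype.card_fun, Fintype.card_subtype_compl, Fintype.card_subtype] at this

lemma cnt {F : Type} [Fintype F] [DecidableEq F] (β γ : Equiv.Perm F)
    (h : 3 * {x | β x = x}.ncard ≤ Fintype.card F) (h0 : 0 < Fintype.card F) :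
    (univ.filter (fun π : Equiv.Perm F => ∀ x, π (β x) = γ (π x))).card ≤
      Fintype.card F ^ (Fintype.card F - 2 * (Fintype.card F / 6)) := by
  let e : F → ℕ := fun x => Fintype.equivFin F x
  have he : Function.Injective e := fun a b h => (Fintype.equivFin F).injective (Fin.ext h)
  have h1 : (univ.filter (fun x => e (β.symm x) < e x)).card =
      (univ.filter (fun x => e x < e (β x))).card := by
    refine (Finset.card_bij (fun x _ => β x) (by simp) (by simp) (fun y hy => ?_)).symm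
    exact ⟨β.symm y, by simpa using hy, by simp⟩
  have h2 : Fintype.card F ≤ (univ.filter (fun x => e (β x) < e x)).card +
      (univ.filter (fun x => e x < e (β x))).card + {x | β x = x}.ncard := by
    rw [Set.ncard_eq_toFinset_card', ← Finset.card_univ]
    refine le_trans (Finset.card_le_card ?_) ((Finset.card_union_le _ _).trans
      (Nat.add_le_add_right (Finset.card_union_le _ _) _))
    intro x _
    rcases lt_trichotomy (e (β x)) (e x) with h | h | h
    · simp [h]
    · simp [he h]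
    · simp [h]
  rcases le_total (univ.filter (fun x => e (β x) < e x)).card
    (univ.filter (fun x => e x < e (β x))).card with h3 | h3
  · refine le_trans (Finset.card_le_card ?_) ((cnt0 e β.symm γ.symm).trans
      (Nat.pow_le_pow_right h0 (by omega)))
    intro π hπ
    simp only [mem_filter, mem_univ, true_and] at hπ ⊢
    intro x
    rw [Equiv.eq_symm_apply, ← hπ]; simp
  · exact (cnt0 e β γ).trans (Nat.pow_le_pow_right h0 (by omega))

lemma sq_le_pow (L : ℕ) : L ^ 2 ≤ 2 * 2 ^ L := by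
  induction L with
  | zero => simp
  | succ L ih =>
    have : L < 2 ^ L := Nat.lt_two_pow_self
    rw [pow_succ 2 L]
    nlinarith

lemma pow_le_fact (f : ℕ) : f ^ f ≤ 3 ^ f * f.factorial := by
  have h1 := Real.pow_div_factorial_le_exp (f : ℝ) (Nat.cast_nonneg f) f
  have h2 : Real.exp f ≤ 3 ^ f := by
    rw [← Real.exp_one_pow]
    exact pow_le_pow_left₀ (Real.exp_pos 1).le (Real.exp_one_lt_three).le f
  rw [div_le_iff₀ (by positivity)] at h1
  have : (f : ℝ) ^ f ≤ 3 ^ f * f.factorial :=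
    h1.trans (mul_le_mul_of_nonneg_right h2 (by positivity))
  exact_mod_cast this

lemma numer (f v L1 L2 : ℕ) (hf : 6561 ≤ f) (hv : v < 3 * f) (h1 : 2 ^ L1 ≤ v + 1)
    (h2 : 2 ^ L2 ≤ f + 1) : v ^ L1 * (f ^ L2 * f ^ (f - 2 * (f / 6))) < f.factorial := by
  have hL : ∀ L, 2 ^ L ≤ 4 * f → 20 * L ≤ f := by
    intro L h
    have := sq_le_pow L
    by_contra hn
    push Not at hn
    nlinarith
  have a1 := hL L1 (by omega)
  have a2 := hL L2 (by omega)
  set k := f / 6 with hk
  have b1 : v ^ L1 ≤ f ^ (2 * L1) := by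
    rw [pow_mul]; exact Nat.pow_le_pow_left (by nlinarith) _
  have b2 : 3 ^ f < f ^ k := by
    calc 3 ^ f ≤ 3 ^ (7 * k) := Nat.pow_le_pow_right (by norm_num) (by omega)
      _ = (3 ^ 7) ^ k := by rw [pow_mul]
      _ < f ^ k := Nat.pow_lt_pow_left (by omega) (by omega)
  have b3 : v ^ L1 * (f ^ L2 * f ^ (f - 2 * k)) ≤ f ^ (f - k) := by
    calc _ ≤ f ^ (2 * L1) * (f ^ L2 * f ^ (f - 2 * k)) := Nat.mul_le_mul_right _ b1
      _ = f ^ (2 * L1 + L2 + (f - 2 * k)) := by rw [pow_add, pow_add, mul_assoc]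
      _ ≤ f ^ (f - k) := Nat.pow_le_pow_right (by omega) (by omega)
  refine lt_of_le_of_lt b3 ?_
  have b4 := pow_le_fact f
  have b5 : f ^ f = f ^ k * f ^ (f - k) := by rw [← pow_add]; congr 1; omega
  have b6 : 0 < f ^ (f - k) := by positivity
  by_contra hn
  push Not at hn
  have : 3 ^ f * f.factorial < f ^ k * f ^ (f - k) :=
    lt_of_le_of_lt (Nat.mul_le_mul_left _ hn) (Nat.mul_lt_mul_of_pos_right b2 b6)
  omega

theorem rigid {W F : Type} [Fintype W] [Fintype F] (I : Inc W F) (S : SQ F) (hS : S.Small)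
    (w0 : W) (hs : 3 * Fintype.card W < 4 * Fintype.card F) (hf : 6561 ≤ Fintype.card F) :
    ∃ σ : SQ F, ∀ α : Equiv.Perm (W ⊕ F), (I.fill σ).IsAut α → ∀ z, α (Sum.inr z) = Sum.inr z := by
  classical
  haveI : Nonempty (W ⊕ F → W ⊕ F) := ⟨id⟩
  let P : W ⊕ F → W ⊕ F → Prop := fun x y => x.isLeft = true ∨ y.isLeft = true
  have hP : ∀ (σ : SQ F) x y, P x y → (I.fill σ).op x y = (I.fill S).op x y := by
    rintro σ (a | a) (b | b) h
    · rfl
    · rfl
    · rfl
    · simp [P] at h
  let good : Equiv.Perm F → (W ⊕ F → W ⊕ F) → Prop := fun β α =>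
    (∀ z, α (Sum.inr z) = Sum.inr (β z)) ∧
      ∀ x y, P x y → α ((I.fill S).op x y) = (I.fill S).op (α x) (α y)
  let Bs : Finset (Equiv.Perm F) := univ.filter (fun β =>
    3 * {x | β x = x}.ncard ≤ Fintype.card F ∧ ∃ α, good β α)
  let As : Finset (Equiv.Perm F) := univ.filter (fun γ => S.IsAut γ)
  obtain ⟨L1, h1, c1⟩ := (I.fill S).card_fam P {x | x.isLeft = true} (fun x hx t => Or.inl hx)
    (by
      rintro (a | a) hx (b | b)
      · exact Or.inl rfl
      · exact Or.inr rfl
      · exact Or.inl rfl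
      · simp at hx) Bs (fun β => Classical.epsilon (good β))
    (fun a ha b hb x hx y hy hxy => by
      have ga := Classical.epsilon_spec (mem_filter.1 ha).2.2
      have gb := Classical.epsilon_spec (mem_filter.1 hb).2.2
      simp only [Set.mem_setOf_eq] at hx hy ⊢
      rw [ga.2 x y hxy, gb.2 x y hxy, hx, hy])
    (fun a ha b hb h => by
      have ga := Classical.epsilon_spec (mem_filter.1 ha).2.2
      have gb := Classical.epsilon_spec (mem_filter.1 hb).2.2
      refine Equiv.ext fun z => Sum.inr_injective (α := W) ?_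
      have e : (I.fill S).op (Sum.inl w0) (Sum.inl (I.m z w0)) = Sum.inr z :=
        (I.t_inr _ _ _).2 rfl
      rw [← ga.1, ← gb.1, ← e, ga.2 _ _ (Or.inl rfl), gb.2 _ _ (Or.inl rfl), h _ rfl, h _ rfl])
  obtain ⟨L2, h2, c2⟩ := S.card_fam (fun _ _ => True) Set.univ (by simp) (by simp) As
    (fun γ => γ)
    (fun a ha b hb x hx y hy _ => by
      simp only [Set.mem_setOf_eq] at hx hy ⊢
      rw [(mem_filter.1 ha).2, (mem_filter.1 hb).2, hx, hy])
    (fun a _ b _ h => Equiv.ext fun x => h x trivial)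
  let bad : Finset (Equiv.Perm F) := Bs.biUnion (fun β => As.biUnion (fun γ =>
    univ.filter (fun π : Equiv.Perm F => ∀ x, π (β x) = γ (π x))))
  have hbad : bad.card < (univ : Finset (Equiv.Perm F)).card := by
    rw [card_univ, Fintype.card_perm]
    refine lt_of_le_of_lt ?_ (numer _ _ L1 L2 hf (by rw [Fintype.card_sum]; omega) h1 h2)
    refine (Finset.card_biUnion_le_card_mul _ _ _ (fun β hβ => ?_)).trans
      (Nat.mul_le_mul_right _ c1)
    exact (Finset.card_biUnion_le_card_mul _ _ _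
      (fun γ _ => cnt β γ (mem_filter.1 hβ).2.1 (by omega))).trans (Nat.mul_le_mul_right _ c2)
  obtain ⟨π, -, hπ⟩ := Finset.exists_mem_notMem_of_card_lt_card hbad
  refine ⟨S.map π, fun α hα => ?_⟩
  have hi := hole_inv I _ (hS.map π) hs α hα
  have h3 : ∀ z, ∃ z', α (Sum.inr z) = Sum.inr z' := fun z => by
    have : α (Sum.inr z) ∈ Set.range (Sum.inr : F → W ⊕ F) := hi ▸ ⟨_, ⟨z, rfl⟩, rfl⟩
    obtain ⟨z', h⟩ := this
    exact ⟨z', h.symm⟩
  choose b hb using h3
  have hbi : Function.Injective b := fun x y h =>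
    Sum.inr_injective (α.injective (by rw [hb, hb, h]))
  let β : Equiv.Perm F := Equiv.ofBijective b (Finite.injective_iff_bijective.1 hbi)
  have hβ : ∀ z, α (Sum.inr z) = Sum.inr (β z) := hb
  have hβa : (S.map π).IsAut β := fun x y => Sum.inr_injective (α := W) (by
    have := hα (Sum.inr x) (Sum.inr y)
    rw [hβ, hβ] at this
    rw [← hβ]; exact this)
  have hl : ∀ x, x.isLeft = true → (α x).isLeft = true := by
    intro x hx
    rcases h : α x with a | z
    · rfl
    · have : x = Sum.inr (β.symm z) := α.injective (by rw [hβ, h]; simp)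
      simp [this] at hx
  by_cases hfix : 3 * {x | β x = x}.ncard ≤ Fintype.card F
  · exfalso
    refine hπ (mem_biUnion.2 ⟨β, mem_filter.2 ⟨mem_univ _, hfix, α, hβ, fun x y h => ?_⟩,
      mem_biUnion.2 ⟨π * β * π⁻¹, mem_filter.2 ⟨mem_univ _, fun x y => ?_⟩, by simp⟩⟩)
    · rw [← hP _ _ _ h, hα, hP _ _ _ (h.imp (hl x) (hl y))]
    · have := hβa (π.symm x) (π.symm y)
      simp only [SQ.map, Equiv.apply_symm_apply] at this
      simp [Equiv.Perm.inv_def, this]
  · have := hS.map π {x | β x = x} (fun x hx y hy _ => by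
      simp only [Set.mem_setOf_eq] at hx hy ⊢
      rw [hβa, hx, hy]) (by rw [Nat.card_eq_fintype_card]; omega)
    intro z
    have h4 : z ∈ {x | β x = x} := by rw [this]; trivial
    rw [hβ, h4]

theorem full {G W F : Type} [Group G] [Fintype W] [Fintype F] (I : Inc W F) (S : SQ F)
    (hS : S.Small) (hs : 3 * Fintype.card W < 4 * Fintype.card F) (hf : 6561 ≤ Fintype.card F)
    (ρ : G →* Equiv.Perm W) (hρ : Function.Injective ρ)
    (heq : ∀ g a b, I.t (ρ g a) (ρ g b) = Sum.map (ρ g) id (I.t a b)) (w0 : W)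
    (mark : ∀ α : W → W, (∀ z a, α (I.m z a) = I.m z (α a)) → ∃ g, α w0 = ρ g w0) :
    ∃ (Q : SQ (W ⊕ F)) (φ : G →* Equiv.Perm (W ⊕ F)), Function.Injective φ ∧
      ∀ α, α ∈ φ.range ↔ Q.IsAut α := by
  obtain ⟨σ, hσ⟩ := rigid I S hS w0 hs hf
  let φ : G →* Equiv.Perm (W ⊕ F) :=
    (Equiv.Perm.sumCongrHom W F).comp (ρ.prod 1)
  have hφ1 : ∀ g a, φ g (Sum.inl a) = Sum.inl (ρ g a) := fun _ _ => rfl
  have hφ2 : ∀ g z, φ g (Sum.inr z) = Sum.inr z := fun _ _ => rfl
  have hm : ∀ g z a, I.m z (ρ g a) = ρ g (I.m z a) := fun g z a =>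
    (I.t_inr _ _ _).1 (by rw [heq, (I.t_inr _ _ _).2 rfl]; rfl)
  have haut : ∀ g, (I.fill σ).IsAut (φ g) := by
    rintro g (a | a) (b | b)
    · exact (heq g a b).symm
    · exact congrArg Sum.inl (hm g b a).symm
    · exact congrArg Sum.inl (hm g a b).symm
    · rfl
  refine ⟨I.fill σ, φ, fun g h e => hρ (Equiv.ext fun a => Sum.inl_injective (β := F) ?_),
    fun α => ⟨?_, fun hα => ?_⟩⟩
  · rw [← hφ1, ← hφ1, e]
  · rintro ⟨g, rfl⟩; exact haut g
  · have h1 := hσ α hα
    have h2 : ∀ a, ∃ a', α (Sum.inl a) = Sum.inl a' := by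
      intro a
      rcases h : α (Sum.inl a) with a' | z
      · exact ⟨_, rfl⟩
      · rw [← h1] at h
        exact absurd (α.injective h) (by simp)
    choose c hc using h2
    obtain ⟨g, hg⟩ := mark c (fun z a => Sum.inl_injective (β := F) (by
      have := hα (Sum.inl a) (Sum.inr z)
      rw [hc, h1] at this
      rw [← hc]; exact this))
    refine ⟨g, Equiv.ext fun x => ?_⟩
    by_contra hx
    have cl : (I.fill σ).Cl (fun _ _ => True) {x | φ g x = α x} := fun x hx y hy _ => by
      simp only [Set.mem_setOf_eq] at hx hy ⊢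
      rw [haut, hα, hx, hy]
    have d1 := (I.fill σ).dbl (fun _ _ => True) cl (U := Set.univ) (fun _ _ _ _ _ => trivial)
      (Set.subset_univ _) (Set.mem_univ x) hx (by simp) (by simp)
    have d2 := (I.fill σ).dbl (fun _ _ => True) (T := Set.range Sum.inr)
      (by rintro _ ⟨x, rfl⟩ _ ⟨y, rfl⟩ _; exact ⟨_, rfl⟩) cl
      (by rintro _ ⟨z, rfl⟩; exact (hφ2 g z).trans (h1 z).symm) (x := Sum.inl w0)
      (by simp only [Set.mem_setOf_eq]; rw [hφ1, hc, hg]) (by simp) (by simp) (by simp)
    rw [Set.ncard_range_of_injective Sum.inr_injective, Nat.card_eq_fintype_card] at d2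
    rw [Set.ncard_univ, Nat.card_eq_fintype_card, Fintype.card_sum] at d1
    omega

end Pool.Agent.STSAut
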