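import Pool.Agent.H.MP_9c4767_co.B
import Pool.Agent.H.MP_9c4767_co.C
import Pool.Agent.H.MP_9c4767_co.D

set_option autoImplicit false
open Finset

namespace Pool.Agent.STSAut

lemma mark0 {G X : Type} [Group G] [AddCommGroup X] (D : Dat G X) (r : G) (c a : X) (hc : c ≠ 0)
    (ha : a ≠ 0) (hac : a + c ≠ 0) (h1 : ∀ y ε, D.tw a y ε 1 = 1)
    (h2 : ∀ y ε, D.tw (a + c) y ε 1 = 1) (w : G × X × Bool) :
    D.m (Sum.inr (Sum.inl (⟨c, hc⟩, r))) (D.m (Sum.inr (Sum.inl (⟨a + c, hac⟩, 1)))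
      (D.m (Sum.inr (Sum.inl (⟨a, ha⟩, 1))) w)) = w ↔ D.tw c w.2.1 w.2.2 r = 1 := by
  obtain ⟨g, y, ε⟩ := w
  have e1 : y + a + (a + c) = y + c := by rw [← add_assoc, D.aa]
  simp only [Dat.m, h1, h2, inv_one, ite_self, mul_one, e1, D.aa, D.htw, Prod.mk.injEq, and_true,
    mul_eq_left]
  split_ifs <;> simp

theorem big (G : Type) [Group G] [Fintype G] (hG : 2 ≤ Fintype.card G) :
    ∃ (V : Type) (_ : Fintype V) (Q : SQ V) (φ : G →* Equiv.Perm V),
      Fintype.card V ≤ Fintype.card G ^ 17 ∧ Function.Injective φ ∧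
      ∀ α, α ∈ φ.range ↔ Q.IsAut α := by
  classical
  set n := Fintype.card G with hn
  obtain ⟨r, hr⟩ : ∃ r : G, r ≠ 1 := by
    haveI := Fintype.one_lt_card_iff_nontrivial.1 (show 1 < Fintype.card G by omega)
    exact exists_ne 1
  set k := Nat.log 2 n + 1 with hk
  have k1 : n < 2 ^ k := Nat.lt_pow_succ_log_self (by norm_num) n
  have k2 : 2 ^ k ≤ 2 * n := by
    rw [hk, pow_succ, mul_comm]
    exact Nat.mul_le_mul_left _ (Nat.pow_log_le_self 2 (by omega))
  let X := (Fin k → ZMod 2) × (Fin 10 → ZMod 2)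
  have cX : Fintype.card X = 2 ^ k * 1024 := by simp [X]
  have hX : ∀ a : X, a + a = 0 := by
    have : ∀ x : ZMod 2, x + x = 0 := by decide
    intro a
    exact Prod.ext (funext fun i => this _) (funext fun i => this _)
  obtain ⟨ι⟩ : Nonempty (G ↪ X) := Function.Embedding.nonempty_of_card_le (by omega)
  let c1 : X := (0, Pi.single 0 1)
  let c2 : X := (0, Pi.single 1 1)
  let a : X := (0, Pi.single 2 1)
  have ne : ∀ {x y : X}, (x.2 0, x.2 1, x.2 2) ≠ (y.2 0, y.2 1, y.2 2) → x ≠ y :=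
    fun h e => h (by rw [e])
  have n1 : c1 ≠ 0 := ne (by simp [c1, c2, a, X])
  have n2 : c2 ≠ 0 := ne (by simp [c1, c2, a, X])
  have n3 : c1 ≠ c2 := ne (by simp [c1, c2, a, X])
  have n4 : a ≠ 0 := ne (by simp [c1, c2, a, X])
  have n5 : a ≠ c1 := ne (by simp [c1, c2, a, X])
  have n6 : a ≠ c2 := ne (by simp [c1, c2, a, X])
  have n7 : a + c1 ≠ 0 := ne (by simp [c1, c2, a, X])
  have n8 : a + c1 ≠ c1 := ne (by simp [c1, c2, a, X])
  have n9 : a + c1 ≠ c2 := ne (by simp [c1, c2, a, X])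
  have n10 : a + c2 ≠ 0 := ne (by simp [c1, c2, a, X])
  have n11 : a + c2 ≠ c1 := ne (by simp [c1, c2, a, X])
  have n12 : a + c2 ≠ c2 := ne (by simp [c1, c2, a, X])
  let D : Dat G X :=
    { hX := hX
      ι := ι
      hι := ι.injective
      e := fun x => Fintype.equivFin X x
      he := fun a b h => (Fintype.equivFin X).injective (Fin.ext h)
      σ := fun s => decide (Fintype.equivFin G s < Fintype.equivFin G s⁻¹)
      hσ := fun s hs => by
        have : Fintype.equivFin G s ≠ Fintype.equivFin G s⁻¹ := fun e =>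
          hs (by nth_rewrite 2 [(Fintype.equivFin G).injective e]; simp)
        rw [inv_inv, ← decide_not]
        exact decide_eq_decide.2 ⟨fun h => by omega, fun h => by omega⟩
      tw := fun b y ε => if ε = false ∧ (b = c1 ∨ b = c2) ∧ (y = 0 ∨ y = b) then Equiv.swap 1 r
        else 1
      htw := fun b y ε => by
        have e1 : y + b = 0 ↔ y = b :=
          ⟨fun h => by rw [← add_zero y, ← hX b, ← add_assoc, h, zero_add], fun h => h ▸ hX y⟩
        simp only [e1, add_eq_right, or_comm] }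
  obtain ⟨fin, cF⟩ := D.card_F
  letI : Fintype D.F := Fintype.ofFinite _
  rw [Nat.card_eq_fintype_card, cX, ← hn] at cF
  set t := Fintype.card D.F with ht
  have cW : Fintype.card (G × X × Bool) = n * (2 ^ k * 1024 * 2) := by simp [cX, hn]
  let w0 : G × X × Bool := (1, 0, false)
  have todd : Odd t := D.inc.odd_card w0 (by rw [cW]; exact ⟨n * (2 ^ k * 1024), by ring⟩)
  have tle : t ≤ Fintype.card (G × X × Bool) :=
    Fintype.card_le_of_injective (fun z => D.m z w0) (fun z z' h => D.mi _ _ _ h)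
  have p0 : 1 ≤ 2 ^ k := Nat.one_le_two_pow
  have tge : 2187 ≤ t := by nlinarith
  haveI : NeZero t := ⟨by omega⟩
  obtain ⟨h, hh⟩ : ∃ h : ZMod t, 2 * h = 1 := by
    obtain ⟨s, hs⟩ := todd
    refine ⟨(s + 1 : ℕ), ?_⟩
    have : ((2 * s + 1 : ℕ) : ZMod t) = 0 := by rw [← hs]; simp
    push_cast at this ⊢
    linear_combination this
  have hS : (bose h hh).Small := fun T hT hc => bose_sub t todd (by omega) h hh T hT (by
    rw [Nat.card_prod, Nat.card_zmod, Nat.card_zmod] at hc; omega)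
  let e : D.F ≃ ZMod t := Fintype.equivOfCardEq (by simp [ht])
  let ρ : G →* Equiv.Perm ((G × X × Bool) × ZMod 3) :=
    { toFun := fun g => ((Equiv.mulLeft g).prodCongr (Equiv.refl _)).prodCongr (Equiv.refl _)
      map_one' := by ext <;> simp
      map_mul' := fun g g' => by ext <;> simp [mul_assoc] }
  have hρ : ∀ g w, ρ g w = ((g * w.1.1, w.1.2), w.2) := fun _ _ => rfl
  obtain ⟨Q, φ, h1, h2⟩ := full D.inc.triple _ (hS.map (e.prodCongr (Equiv.refl _)))
    (by simp only [Fintype.card_prod _ (ZMod 3), cW, ← ht, ZMod.card]; nlinarith)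
    (by simp only [Fintype.card_prod _ (ZMod 3), ← ht, ZMod.card]; omega) ρ
    (fun g g' h => by
      have := congrArg (fun p : Equiv.Perm _ => (p (w0, 0)).1.1) h
      simpa [hρ, w0] using this)
    (fun g x y => by
      simp only [hρ, Inc.triple, D.inc_eq]
      rcases D.inc.t x.1 y.1 with c | z <;> rfl) (w0, 0)
    (fun α hα => by
      have m1 := mark0 D r c1 a n1 n4 n7 (by simp [D, n5, n6]) (by simp [D, n8, n9])
      have m2 := mark0 D r c2 a n2 n4 n10 (by simp [D, n5, n6]) (by simp [D, n11, n12])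
      have key : ∀ z1 z2 z3 : D.F, D.m z1 (D.m z2 (D.m z3 w0)) = w0 →
          D.m z1 (D.m z2 (D.m z3 (α (w0, 0)).1)) = (α (w0, 0)).1 ∧ (α (w0, 0)).2 = 0 := by
        intro z1 z2 z3 hz
        have e1 : D.inc.triple.m (z1, 0) (D.inc.triple.m (z2, 0) (D.inc.triple.m (z3, 0) (w0, 0)))
            = (w0, 0) := by simp [Inc.triple, D.inc_m, hz]
        have e2 := congrArg α e1
        rw [hα, hα, hα] at e2
        simp only [Inc.triple, D.inc_m] at e2
        have : ∀ i : ZMod 3, -(-(-i - 0) - 0) - 0 = i → i = 0 := by decide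
        exact ⟨congrArg Prod.fst e2, this _ (congrArg Prod.snd e2)⟩
      obtain ⟨a1, a0⟩ := key _ _ _ ((m1 w0).2 (by simp [D, w0]))
      obtain ⟨a2, -⟩ := key _ _ _ ((m2 w0).2 (by simp [D, w0]))
      rw [m1] at a1
      rw [m2] at a2
      simp only [D] at a1 a2
      split_ifs at a1 a2 with b1 b2
      · refine ⟨(α (w0, 0)).1.1, ?_⟩
        rw [hρ]
        refine Prod.ext (Prod.ext (by simp [w0]) (Prod.ext ?_ b1.1)) a0
        rcases b1.2.2 with h | h
        · exact h
        · rcases b2.2.2 with h' | h'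
          · exact h'
          · exact absurd (h.symm.trans h') n3
      all_goals exact absurd ‹_› hr)
  refine ⟨_, inferInstance, Q, φ, ?_, h1, h2⟩
  simp only [Fintype.card_sum, Fintype.card_prod _ (ZMod 3), ← ht, ZMod.card]
  rw [cW] at tle ⊢
  have : 2 ^ 15 ≤ n ^ 15 := Nat.pow_le_pow_left hG 15
  calc _ ≤ 2 ^ 15 * (n * n) := by nlinarith
    _ ≤ n ^ 15 * (n * n) := Nat.mul_le_mul_right _ this
    _ = n ^ 17 := by ring

theorem main (G : Type) [Group G] [Fintype G] :
    ∃ (m : ℕ) (B : Finset (Finset (Fin m))),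
      m ≤ (Fintype.card G) ^ 17 ∧
      (∀ b ∈ B, b.card = 3) ∧
      (∀ x y : Fin m, x ≠ y → ∃! b, b ∈ B ∧ x ∈ b ∧ y ∈ b) ∧
      ∃ φ : G →* Equiv.Perm (Fin m), Function.Injective φ ∧
        ∀ σ : Equiv.Perm (Fin m),
          (σ ∈ φ.range ↔ ∀ b : Finset (Fin m), (b ∈ B ↔ b.map σ.toEmbedding ∈ B)) := by
  by_cases hG : 2 ≤ Fintype.card G
  · obtain ⟨V, _, Q, φ, h1, h2, h3⟩ := big G hG
    let e := (Fintype.equivFin V).symm
    refine ⟨_, (Q.map e).blocks, h1, (Q.map e).card_block, (Q.map e).exu,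
      (e.symm.permCongrHom : _ →* _).comp φ, e.symm.permCongrHom.injective.comp h2, fun σ => ?_⟩
    rw [← SQ.isAut_iff]
    have : σ ∈ ((e.symm.permCongrHom : _ →* _).comp φ).range ↔ e.permCongr σ ∈ φ.range := by
      constructor
      · rintro ⟨g, rfl⟩
        exact ⟨g, by ext; simp⟩
      · rintro ⟨g, hg⟩
        exact ⟨g, by ext; simp [hg]⟩
    rw [this, h3]
    constructor
    · intro h x y
      have := h (e x) (e y)
      simp only [Equiv.permCongr_apply, Equiv.symm_apply_apply] at this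
      simp only [SQ.map]
      rw [← this]; simp
    · intro h x y
      have := h (e.symm x) (e.symm y)
      simp only [SQ.map, Equiv.apply_symm_apply] at this
      simp [this]
  · haveI : Subsingleton G := Fintype.card_le_one_iff_subsingleton.1 (by omega)
    refine ⟨0, ∅, Nat.zero_le _, by simp, fun x => x.elim0, 1,
      fun a b _ => Subsingleton.elim a b, fun σ => ?_⟩
    rw [Subsingleton.elim σ 1]
    simp

end Pool.Agent.STSAut
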